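import Pool.Agent.Helper96.GU.StF

set_option autoImplicit false

namespace Pool.Agent.Helper36.GF

open Pool.Agent.Helper96.UT hiding StTOP TopV TopE tht Bd VC EC
open Pool.Agent.Helper96.GU

private theorem take_HPS {α : Type} (r : FreeMonoid (α × Bool)) (Z : Cyc α)
    (hr : FreeMonoid.toList r = seg Z.c 0 Z.n) (j : ℕ) :
    (FreeMonoid.toList r).take j = seg Z.c 0 (min j Z.n) := by
  rw [hr]
  rcases le_total j Z.n with h | h
  · rw [min_eq_left h, take_seg Z.c 0 Z.n j h]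
  · rw [min_eq_right h, List.take_of_length_le (by simpa using h)]

private theorem HU_le_HPS {α : Type} (r : FreeMonoid (α × Bool)) (Z : Cyc α)
    (hr : FreeMonoid.toList r = seg Z.c 0 Z.n) : HU r ≤ Hp r Z := by
  unfold HU
  rw [Subgroup.closure_le]
  rintro g ⟨j, hj, rfl⟩
  rw [take_HPS r Z hr] at hj ⊢
  refine Subgroup.subset_closure ⟨((min j Z.n : ℕ) : ℤ), 0, io r (seg Z.c 0 (min j Z.n)), hj, ?_, ?_⟩
  · rw [sg_of_le r Z hr (min_le_right _ _), sg_zero, mul_one]
  · rw [mk_seg, pre_zero, inv_one, one_mul, mul_one, zero_add]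

theorem tHPS : Pool.Agent.Helper96.UT.StPSI → StHPV → StTSC → StVNT → StHPS := by
  intro hPSI hHPV hTSC hVNT α r Z hr
  have hB' : ∀ h : Hp r Z, ∃ w : List (α × Bool), FreeGroup.mk w = (h : FreeGroup α) ∧
      IsUnit (io r w) := fun h => hHPV α r Z hr h.1 h.2
  choose f hf1 hf2 using hB'
  have key : ∀ (h : Hp r Z) (w : List (α × Bool)), FreeGroup.mk w = (h : FreeGroup α) →
      IsUnit (io r w) → io r (f h) = io r w := by
    intro h w hw hu
    exact RU_uniq (RU_unit (hf2 h)) (RU_unit hu) ((hf1 h).trans hw.symm)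
  let Ψ : Hp r Z →* (IM r)ˣ := MonoidHom.mk' (fun h => (hf2 h).unit) (by
    intro g h
    apply Units.ext
    rw [Units.val_mul, IsUnit.unit_spec, IsUnit.unit_spec, IsUnit.unit_spec, ← io_append]
    refine key (g * h) _ ?_ ?_
    · rw [mk_append, hf1, hf1]
      rfl
    · rw [io_append]
      exact (hf2 g).mul (hf2 h))
  have hΨ : ∀ h, ((Ψ h : (IM r)ˣ) : IM r) = io r (f h) := fun h => IsUnit.unit_spec (hf2 h)
  refine ⟨Ψ, ?_, ?_⟩
  · intro y
    obtain ⟨Φ, hs, h2, h3, -⟩ := hPSI α r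
    obtain ⟨h', hh'⟩ := hs y
    obtain ⟨w, hw, hu⟩ := h3 h'
    have hwy : io r w = (y : IM r) := by rw [← h2 h' w hw hu, hh']
    refine ⟨⟨h', HU_le_HPS r Z hr h'.2⟩, Units.ext ?_⟩
    rw [hΨ, key ⟨h', HU_le_HPS r Z hr h'.2⟩ w hw hu, hwy]
  · intro h
    constructor
    · intro hh
      have e : io r (f h) = 1 := by
        rw [← hΨ, hh]
        rfl
      rw [← hf1 h]
      exact hTSC α r Z hr (f h) e
    · intro hh
      obtain ⟨w, hw, hw1⟩ := hVNT α r Z hr _ hh
      apply Units.ext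
      rw [hΨ, key h w hw (by rw [hw1]; exact isUnit_one), hw1]
      rfl

end Pool.Agent.Helper36.GF
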