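import Pool.Agent.Helper96.GU.StF

set_option autoImplicit false

namespace Pool.Agent.Helper36.GF

open Pool.Agent.Helper96.UT hiding StTOP TopV TopE tht Bd VC EC
open Pool.Agent.Helper96.GU

theorem tINH : StINF → StEXT → StGNH → StINH := by
  intro hINF hEXT hGNH α r Z η m hr hm hMx h hH hN
  -- the coset space of `H`
  have key : ∀ g : FreeGroup α, act (((1 : FreeGroup α) : FreeGroup α ⧸ Hp r Z)) g
      = (((1 : FreeGroup α) : FreeGroup α ⧸ Hp r Z)) ↔ g ∈ Hp r Z := by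
    intro g
    have h1 := act_coset_eq_EXZ (Hp r Z) g 1
    rw [act_one, inv_one, mul_one] at h1
    exact h1
  obtain ⟨Ω, _, v, E, C, hOv, hCpx, hHh, hvh, q₀, hq₀, hq₀h⟩ := hEXT α r Z hr h hN
  obtain ⟨q₁, hq₁, hq₁h⟩ := hGNH α r Z (FreeGroup α ⧸ Hp r Z) _ key h hH
  obtain ⟨q, hq, hqE, hqC⟩ := common_red (hq₀h.trans hq₁h.symm) hq₀ hq₁
  have h2 := hINF α r Z η m hr hm hMx Ω (FreeGroup α ⧸ Hp r Z) _ key v E C hOv hCpx hHh q hqE hqC
    (by rw [hq, hq₀h, hvh])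
  rw [hq, hq₀h] at h2
  exact h2

end Pool.Agent.Helper36.GF
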