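import Pool.Agent.Helper96.GU.StF
import Pool.Agent.Helper82.GU.M_SNG

set_option autoImplicit false

namespace Pool.Agent.Helper36.GF

open Pool.Agent.Helper96.UT hiding StTOP TopV TopE tht Bd VC EC
open Pool.Agent.Helper96.GU
open Pool.Agent.Helper82.GU

theorem tNBD : StNBD := by
  classical
  intro α Z η Ω _ C hC u hu hB
  have hn : (0 : ℤ) < Z.n := by exact_mod_cast Z.pos
  have hfix := hC u hu
  have hAT : ∀ k : ℤ, TopE Z C η.η u k → TopV Z C η.η u k := by
    intro k hk
    have h0 := Int.emod_nonneg k hn.ne'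
    have h1 := Int.emod_lt_of_pos k hn
    have hk' : ((k % Z.n).toNat : ℤ) + (k / Z.n) * Z.n = k := by
      rw [Int.toNat_of_nonneg h0]
      have := Int.mul_ediv_add_emod k Z.n
      linarith [mul_comm (k / Z.n) (Z.n : ℤ)]
    by_contra hc
    refine hB (k % Z.n).toNat (by omega) ?_
    simp only [Bd, Finset.mem_filter, Finset.mem_product, Finset.mem_range]
    refine ⟨⟨hu, by omega⟩, ?_, ?_⟩
    · rw [← topE_per_SNG C η hfix _ (k / Z.n), hk']
      exact hk
    · rw [← topV_per_SNG C η hfix _ (k / Z.n), hk']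
      exact hc
  obtain ⟨m₀, hm₀⟩ := exists_max_ARC η
  have hT0 : ∀ q : ℤ, TopV Z C η.η u (m₀ + q * Z.n) := by
    intro q u' _ k' _
    rw [eta_mul_ARC]
    exact hm₀ k'
  have hstep : ∀ k, TopV Z C η.η u (k + 1) → TopV Z C η.η u k := fun k hk =>
    hAT k (topV_succ_SNG C η u k hk)
  have hdown : ∀ (k : ℤ) (t : ℕ), TopV Z C η.η u (k + t) → TopV Z C η.η u k := by
    intro k t
    induction t with
    | zero => simp
    | succ t ih =>
      intro h
      apply ih
      apply hstep
      have e : k + ((t + 1 : ℕ) : ℤ) = k + t + 1 := by push_cast; ring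
      rwa [e] at h
  intro k
  have hk : k ≤ m₀ + (|k - m₀|) * Z.n := by
    have h1 : k - m₀ ≤ |k - m₀| := le_abs_self _
    have h2 : 0 ≤ |k - m₀| := abs_nonneg _
    nlinarith
  obtain ⟨t, ht⟩ := Int.le.dest hk
  exact topVE_TOP η C (hdown k t (by rw [ht]; exact hT0 _))

end Pool.Agent.Helper36.GF
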