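import Pool.Agent.Helper96.GU.StF

set_option autoImplicit false

namespace Pool.Agent.Helper36.GF

open Pool.Agent.Helper96.UT hiding StTOP TopV TopE tht Bd VC EC
open Pool.Agent.Helper96.GU

theorem tUNI : StUNI := by
  intro α r Z hr x y a b hy hx hab hGe
  obtain ⟨u, rfl⟩ := hy
  have h1 : sg r Z a = ((u⁻¹ : (IM r)ˣ) : IM r) * x * sg r Z b := by
    rw [mul_assoc, ← hab, ← mul_assoc, u.inv_mul, one_mul]
  have hRU : RU (((u⁻¹ : (IM r)ˣ) : IM r) * x) := by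
    obtain ⟨z, hz⟩ := hx
    refine ⟨z * (u : IM r), ?_⟩
    calc ((u⁻¹ : (IM r)ˣ) : IM r) * x * (z * (u : IM r))
        = ((u⁻¹ : (IM r)ˣ) : IM r) * (x * z) * (u : IM r) := by simp only [mul_assoc]
      _ = 1 := by rw [hz, mul_one, u.inv_mul]
  obtain ⟨x2, -, h2⟩ := hGe ⟨_, hRU, h1⟩
  have e1 : ((u⁻¹ : (IM r)ˣ) : IM r) * x * x2 = 1 := by
    refine RU_cancel (RU_sg r Z hr a) ?_
    rw [one_mul, mul_assoc, ← h2]
    exact h1.symm
  have e2 : x2 * (((u⁻¹ : (IM r)ˣ) : IM r) * x) = 1 := by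
    refine RU_cancel (RU_sg r Z hr b) ?_
    rw [one_mul, mul_assoc, ← h1]
    exact h2.symm
  refine ⟨⟨x, x2 * ((u⁻¹ : (IM r)ˣ) : IM r), ?_, ?_⟩, rfl⟩
  · calc x * (x2 * ((u⁻¹ : (IM r)ˣ) : IM r))
        = (u : IM r) * (((u⁻¹ : (IM r)ˣ) : IM r) * x * x2) * ((u⁻¹ : (IM r)ˣ) : IM r) := by
          simp only [mul_assoc, Units.mul_inv_cancel_left]
      _ = 1 := by rw [e1, mul_one, u.mul_inv]
  · rw [mul_assoc]
    exact e2

end Pool.Agent.Helper36.GF
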